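import Pool.Agent.X111.PA.Fin

set_option autoImplicit false

/-!
MP_56b8f5_nt. The law of `log |ζ|` at several points and all scales under the measures given by the (shifted) moments of
all real orders, next to the critical line. Let `s_j = 1/2 + D_j(T) + i(t + X_j(T))`, `j ≤ n`, with `d(T) ≤ D_j(T) ≤ 1/16`,
`|X_j(T)| ≤ 1`, `d(T) log T / log log T → ∞`, and `ℓ_ij(T) = -log |D_i + D_j + i(X_i - X_j)|`. If `L(T) → ∞` and
`ℓ_ij / L → r_ij`, then, under the measure `∏ |ζ(s_j)|^(2β_j) dt` with any real `β_j`, on the set of the `t ≤ T` where all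
`|ζ(s_j)|` lie between `1/V` and `V`, the vector of the `(log |ζ(s_j)| - ∑_i β_i ℓ_ij) / √(L/2)` converges in law to the
normal law with mean `0` and covariance `r`. For `β_j ≥ 0` with sum less than `2` the same holds on the whole of `(0, T]`.

For example, if `X_j = 0`, `D_j = d^(s_j)`, `L = log (1/d)`, then `r_ij = min(s_i, s_j)`: under the `2k`-th moment of `ζ` at
distance `d` the path `s ↦ log |ζ(1/2 + d^s + it)|` is a Brownian motion with drift `k`; and if `X_j = d^(u_j)`, `D_j = d`,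
then around the points that carry the `2k`-th moment `|ζ(1/2 + d + i(t + h))|` is about `h^(-k)` for `d ≤ h ≤ 1`.
-/

open Filter Topology MeasureTheory ProbabilityTheory

namespace Pool.Agent.Results.MP_56b8f5_nt.LawAtAllScales

/-- The absolute value `|ζ(1/2 + D_j(T) + i(t + X_j(T)))|`. -/
noncomputable def absZ {n : ℕ} (D X : Fin n → ℝ → ℝ) (T t : ℝ) (j : Fin n) : ℝ :=
  ‖riemannZeta (1 / 2 + (D j T : ℂ) + Complex.I * ((t + X j T : ℝ) : ℂ))‖

/-- The numbers `ℓ_ij = -log √((D_i + D_j)² + (X_i - X_j)²)`. -/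
noncomputable def ell {n : ℕ} (D X : Fin n → ℝ → ℝ) (i j : Fin n) (T : ℝ) : ℝ :=
  -(Real.log ((D i T + D j T) ^ 2 + (X i T - X j T) ^ 2) / 2)

/-- The density `∏ |ζ(s_j)|^(2β_j)`. -/
noncomputable def dens {n : ℕ} (D X : Fin n → ℝ → ℝ) (β : Fin n → ℝ) (T t : ℝ) : ℝ := ∏ j, absZ D X T t j ^ (2 * β j)

/-- The vector of the `(log |ζ(s_j)| - ∑_i β_i ℓ_ij) / √(L/2)`. -/
noncomputable def Y {n : ℕ} (D X : Fin n → ℝ → ℝ) (L : ℝ → ℝ) (β : Fin n → ℝ) (T t : ℝ) : Fin n → ℝ := fun j =>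
  (Real.log (absZ D X T t j) - ∑ i, β i * ell D X i j T) / Real.sqrt (L T / 2)

/-- The `t` in `(0, T]` where all `|ζ(s_j)|` lie between `1 / V(T)` and `V(T)`. -/
def good {n : ℕ} (D X : Fin n → ℝ → ℝ) (V : ℝ → ℝ) (T : ℝ) : Set ℝ :=
  {t | (0 < t ∧ t ≤ T) ∧ ∀ j, (V T)⁻¹ < absZ D X T t j ∧ absZ D X T t j < V T}

/-- `ρ` is the normal law on `ℝ^n` with mean `0` and covariance `r`: the linear forms `∑ c_j y_j` have the normal laws
with mean `0` and variance `∑ c_i c_j r_ij`. -/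
def Normal {n : ℕ} (r : Fin n → Fin n → ℝ) (ρ : ProbabilityMeasure (Fin n → ℝ)) : Prop :=
  ∀ c : Fin n → ℝ, 0 ≤ ∑ i, ∑ j, c i * c j * r i j ∧
    (ρ : Measure (Fin n → ℝ)).map (fun y => ∑ j, c j * y j) = gaussianReal 0 (∑ i, ∑ j, c i * c j * r i j).toNNReal

lemma absZ_eq {n : ℕ} (D X : Fin n → ℝ → ℝ) (d : ℝ → ℝ) (T t : ℝ) :
    Pool.Agent.X111.PA.zz (d T) (Pool.Agent.X111.PA.WW D X d T) t = absZ D X T t := by
  funext j
  unfold Pool.Agent.X111.PA.zz Pool.Agent.X111.PA.WW Pool.Agent.X111.PA.wv Pool.Agent.Y746.OA.sp absZ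
  congr 2
  push_cast
  ring

theorem result (n : ℕ) (hn : 0 < n) (D X : Fin n → ℝ → ℝ) (d V L : ℝ → ℝ) (r : Fin n → Fin n → ℝ)
    (hpos : ∀ᶠ T : ℝ in atTop, ∀ j, d T ≤ D j T ∧ D j T ≤ 1 / 16 ∧ |X j T| ≤ 1)
    (hd : Tendsto (fun T => d T * Real.log T / Real.log (Real.log T)) atTop atTop)
    (hV0 : ∀ᶠ T : ℝ in atTop, 0 < V T)
    (hV1 : Tendsto (fun T => Real.log (V T) / Real.log (Real.log T)) atTop atTop)
    (hV2 : Tendsto (fun T => Real.log (V T) / (d T * Real.log T)) atTop (𝓝 0))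
    (hL : Tendsto L atTop atTop) (hr : ∀ i j, Tendsto (fun T => ell D X i j T / L T) atTop (𝓝 (r i j))) :
    (∀ B : ℕ, ∀ᶠ T : ℝ in atTop, (volume (Set.Ioc 0 T \ good D X V T)).toReal ≤ T / Real.log T ^ B) ∧
    ∀ β : Fin n → ℝ, ∃ ρ : ProbabilityMeasure (Fin n → ℝ), Normal r ρ ∧ ∀ F : BoundedContinuousFunction (Fin n → ℝ) ℝ,
      Tendsto (fun T : ℝ => (∫ t in good D X V T, dens D X β T t * F (Y D X L β T t)) / ∫ t in good D X V T, dens D X β T t) atTop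
        (𝓝 (∫ y, F y ∂(ρ : Measure (Fin n → ℝ)))) ∧
      ((∀ j, 0 ≤ β j) → ∑ j, β j < 2 →
        Tendsto (fun T : ℝ => (∫ t in Set.Ioc 0 T, dens D X β T t * F (Y D X L β T t)) / ∫ t in Set.Ioc 0 T, dens D X β T t) atTop
          (𝓝 (∫ y, F y ∂(ρ : Measure (Fin n → ℝ))))) := by
  have h : Pool.Agent.X111.PA.Hyp D X d V L r := ⟨hn, hpos, hd, hV0, hV1, hV2, hL, hr⟩
  have hgood : ∀ T : ℝ, Set.Ioc 0 T ∩ Pool.Agent.X110.RR.GS (d T) (V T) (Pool.Agent.X111.PA.WW D X d T) = good D X V T := by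
    intro T
    ext t
    have e : ∀ j, Pool.Agent.X111.PA.zz (d T) (Pool.Agent.X111.PA.WW D X d T) t j = absZ D X T t j := fun j => congrFun (absZ_eq D X d T t) j
    show (t ∈ Set.Ioc 0 T ∧ ∀ j, (V T)⁻¹ < Pool.Agent.X111.PA.zz (d T) (Pool.Agent.X111.PA.WW D X d T) t j ∧
      Pool.Agent.X111.PA.zz (d T) (Pool.Agent.X111.PA.WW D X d T) t j < V T) ↔ _
    simp only [e]
    rfl
  have hdens : ∀ (β : Fin n → ℝ) (T t : ℝ), Pool.Agent.X111.PA.pd (d T) (Pool.Agent.X111.PA.WW D X d T) β t = dens D X β T t := by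
    intro β T t
    unfold Pool.Agent.X111.PA.pd dens
    rw [absZ_eq D X d T t]
  have hY : ∀ (β : Fin n → ℝ) (T t : ℝ), Pool.Agent.X111.PA.YY D X d L β T t = Y D X L β T t := by
    intro β T t
    unfold Pool.Agent.X111.PA.YY Y
    rw [absZ_eq D X d T t]
    rfl
  constructor
  · intro B
    filter_upwards [h.bad B] with T hT
    rwa [← hgood T, Set.sdiff_self_inter]
  · intro β
    obtain ⟨ρ, hρ, hF⟩ := h.full β
    refine ⟨ρ, fun c => ?_, fun F => ?_⟩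
    · obtain ⟨h1, h2⟩ := hρ c
      refine ⟨h1, ?_⟩
      have e : Pool.Agent.Y753.SHL.lf c (fun _ => (0:ℝ)) = 0 := by
        unfold Pool.Agent.Y753.SHL.lf
        simp
      rw [e] at h2
      exact h2
    · have h1 := hF F
      simp only [hdens, hY, hgood] at h1
      exact h1

end Pool.Agent.Results.MP_56b8f5_nt.LawAtAllScales
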