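import Pool.Agent.X35.ZW.Mom

/-!
# The eighth moment (and all higher moments) of the zeta function over the windows `[α v_i - v_i ^ θ, α v_i + v_i ^ θ]`
-/

set_option autoImplicit false

namespace Pool.Agent.Results.MP_56b8f5_nt.MomentsNearSequences

/-- Let `v_i ≥ 1` with `∑ v_i ^ (-t) < ∞` for all `t > τ` (`τ ≥ 0`; for example `v_i = 2 ^ i`, `τ = 0`) and `0 ≤ θ < 1`.
(1) The eighth moment: for all `0 ≤ ε ≤ 2 - θ` there is a set `E` of Hausdorff dimension at most `(1 - (θ + ε) / 2 + τ) / (1 - θ)` (less than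
one if `τ = 0` and `θ < ε`) such that for all `α > 0` outside `E` and all `i ≥ i₀` the integral of `|ζ(1 / 2 + i t)| ^ 8` over
`[α v_i - v_i ^ θ, α v_i + v_i ^ θ]` is at most `v_i ^ (θ + ε)`.
(2) All moments of order `q ≥ 4`: for `0 ≤ ε`, `4 (θ + ε) ≤ q` there is a set `E` of dimension at most
`(1 - 4 (θ + ε) / q + τ) / (1 - θ)` such that for all `α > 0` outside `E` and all `i ≥ i₀` the integral of `|ζ(1 / 2 + i t)| ^ q` over this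
window is at most `v_i ^ (θ + ε)`.
(3) All moments together: for `0 ≤ η ≤ 1 / 4` there is a set `E` of dimension at most `(1 - 4 η + τ) / (1 - θ)` such that for all `α > 0`
outside `E`, all `i ≥ i₀` and ALL `t ≥ 1` in this window `|ζ(1 / 2 + i t)| ≤ t ^ η`. -/
theorem result (v : ℕ → ℝ) (τ θ : ℝ) (hv1 : ∀ i, 1 ≤ v i) (hτ : 0 ≤ τ) (hθ0 : 0 ≤ θ) (hθ : θ < 1)
    (hv : ∀ t : ℝ, τ < t → Summable (fun i => v i ^ (-t))) :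
    (∀ ε : ℝ, 0 ≤ ε → θ + ε ≤ 2 → ∃ E : Set ℝ, dimH E ≤ ENNReal.ofReal ((1 - (θ + ε) / 2 + τ) / (1 - θ)) ∧
      ∀ α : ℝ, 0 < α → α ∉ E → ∃ i₀ : ℕ, ∀ i : ℕ, i₀ ≤ i →
        ∫ t in (α * v i - v i ^ θ)..(α * v i + v i ^ θ), ‖riemannZeta (1 / 2 + t * Complex.I)‖ ^ 8 ≤ v i ^ (θ + ε)) ∧
    (∀ q ε : ℝ, 4 ≤ q → 0 ≤ ε → 4 * (θ + ε) ≤ q → ∃ E : Set ℝ, dimH E ≤ ENNReal.ofReal ((1 - 4 * (θ + ε) / q + τ) / (1 - θ)) ∧
      ∀ α : ℝ, 0 < α → α ∉ E → ∃ i₀ : ℕ, ∀ i : ℕ, i₀ ≤ i →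
        ∫ t in (α * v i - v i ^ θ)..(α * v i + v i ^ θ), ‖riemannZeta (1 / 2 + t * Complex.I)‖ ^ q ≤ v i ^ (θ + ε)) ∧
    (∀ η : ℝ, 0 ≤ η → η ≤ 1 / 4 → ∃ E : Set ℝ, dimH E ≤ ENNReal.ofReal ((1 - 4 * η + τ) / (1 - θ)) ∧
      ∀ α : ℝ, 0 < α → α ∉ E → ∃ i₀ : ℕ, ∀ i : ℕ, i₀ ≤ i → ∀ t : ℝ, |t - α * v i| ≤ v i ^ θ → 1 ≤ t →
        ‖riemannZeta (1 / 2 + t * Complex.I)‖ ≤ t ^ η) := by
  refine ⟨fun ε hε hθε => ?_, fun q ε hq hε hqε => Pool.Agent.X35.ZW.moment_windows hv1 hτ hv hθ0 hθ hq hε hqε,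
    fun η hη0 hη => Pool.Agent.X35.ZW.zeta_windows hv1 hτ hv hθ0 hθ hη0 hη⟩
  obtain ⟨E, hE, h⟩ := Pool.Agent.X35.ZW.moment_windows (q := 8) (ε := ε) hv1 hτ hv hθ0 hθ (by norm_num) hε (by linarith)
  refine ⟨E, ?_, fun α hα hαE => ?_⟩
  · have e : (1 - 4 * (θ + ε) / 8 + τ) / (1 - θ) = (1 - (θ + ε) / 2 + τ) / (1 - θ) := by ring
    rwa [e] at hE
  · obtain ⟨i₀, hi₀⟩ := h α hα hαE
    refine ⟨i₀, fun i hi => ?_⟩
    have h1 := hi₀ i hi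
    refine le_trans (le_of_eq ?_) h1
    apply intervalIntegral.integral_congr
    intro t _
    simp only
    rw [← Real.rpow_natCast]
    norm_num

end Pool.Agent.Results.MP_56b8f5_nt.MomentsNearSequences
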