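import Pool.Agent.X117.Dens2

/-!
# Values and moments of zeta over relatively dense sets, and in double sectors

Unconditionally, for all real `κ` and `k`: if a measurable set `D` fills a fixed proportion of every interval of
length `(log T) ^ (e - 1)` in `[T, 2 T]`, then the `t ∈ D` with `|ζ(1/2 + i t)|` of size `(log T) ^ κ` have
measure at least `T (log T) ^ (-κ ^ 2 - ε)`, and the integral of `|ζ(1/2 + i t)| ^ (2 k)` over `D` is at least
`T (log T) ^ (k ^ 2 - ε)`, uniformly in `D`. Both hold for the `t` for which `ζ(1/2 + i t)` is close to a given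
line through `0`, uniformly in the line.
-/

open Filter Topology Complex MeasureTheory

namespace Pool.Agent.Results.MP_56b8f5_nt.MomentsOverDenseSets

/-- `D` fills at least the proportion `η` of every interval of length `h` in `[T, 2 T]` -/
def RelDense (η h T : ℝ) (D : Set ℝ) : Prop :=
  ∀ a : ℝ, T ≤ a → a + h ≤ 2 * T → η * h ≤ volume.real (D ∩ Set.Icc a (a + h))

/-- the `t ∈ D ∩ [T, 2 T]` with `(log T) ^ (κ - ε) ≤ |ζ(1/2 + i t)| ≤ (log T) ^ (κ + ε)` -/
def near (κ ε T : ℝ) (D : Set ℝ) : Set ℝ :=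
  {t : ℝ | T ≤ t ∧ t ≤ 2 * T ∧ Real.log T ^ (κ - ε) ≤ ‖riemannZeta (1 / 2 + t * I)‖ ∧
    ‖riemannZeta (1 / 2 + t * I)‖ ≤ Real.log T ^ (κ + ε) ∧ t ∈ D}

/-- the integral of `|ζ(1/2 + i t)| ^ (2 k)` over `D ∩ [T, 2 T]` -/
noncomputable def moment (k T : ℝ) (D : Set ℝ) : ENNReal :=
  ∫⁻ t in D ∩ Set.Icc T (2 * T), ENNReal.ofReal (‖riemannZeta (1 / 2 + t * I)‖ ^ (2 * k))

/-- the `t` for which `ζ(1/2 + i t)` is in the double sector of half-angle `arcsin δ` about the line through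
`0` of direction `exp (i φ)` -/
def sector (φ δ : ℝ) : Set ℝ :=
  {t : ℝ | |(riemannZeta (1 / 2 + t * I) * cexp (-(φ * I))).im| ≤ δ * ‖riemannZeta (1 / 2 + t * I)‖}

lemma cont : Continuous fun t : ℝ => riemannZeta (1 / 2 + (t : ℂ) * I) := Pool.Agent.X117.DS.zeta_line_cont

lemma near_sub (κ ε T : ℝ) (D : Set ℝ) : near κ ε T D ⊆ D ∩ Set.Icc T (2 * T) :=
  fun _ h => ⟨h.2.2.2.2, h.1, h.2.1⟩

lemma vol_ne {s D : Set ℝ} {T : ℝ} (h : s ⊆ D ∩ Set.Icc T (2 * T)) : volume s ≠ ⊤ :=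
  (measure_lt_top_of_subset (h.trans Set.inter_subset_right)
    (by rw [Real.volume_Icc]; exact ENNReal.ofReal_ne_top)).ne

lemma near_meas (κ ε T : ℝ) {D : Set ℝ} (hD : MeasurableSet D) : MeasurableSet (near κ ε T D) := by
  have h : near κ ε T D = Set.Icc T (2 * T) ∩
      ({t : ℝ | Real.log T ^ (κ - ε) ≤ ‖riemannZeta (1 / 2 + t * I)‖} ∩
        {t : ℝ | ‖riemannZeta (1 / 2 + t * I)‖ ≤ Real.log T ^ (κ + ε)}) ∩ D := by
    ext t
    simp [near, and_assoc]
  rw [h]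
  exact (measurableSet_Icc.inter ((isClosed_le continuous_const cont.norm).measurableSet.inter
    (isClosed_le cont.norm continuous_const).measurableSet)).inter hD

/-- the zeros form a null set -/
lemma ae_ne : ∀ᵐ t : ℝ, riemannZeta (1 / 2 + (t : ℂ) * I) ≠ 0 := by
  have han : AnalyticOnNhd ℝ (fun t : ℝ => riemannZeta (1 / 2 + (t : ℂ) * I)) Set.univ := by
    intro t _
    have h1 : AnalyticAt ℂ riemannZeta (1 / 2 + (t : ℂ) * I) := by
      have hd : DifferentiableOn ℂ riemannZeta {1}ᶜ := fun s hs =>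
        (differentiableAt_riemannZeta hs).differentiableWithinAt
      refine hd.analyticAt (isOpen_compl_singleton.mem_nhds ?_)
      intro h
      have := congrArg Complex.re h
      norm_num at this
    have h2 : AnalyticAt ℝ (fun t : ℝ => (1 / 2 + (t : ℂ) * I)) t := by
      have h3 : AnalyticAt ℝ (fun t : ℝ => (t : ℂ)) t := Complex.ofRealCLM.analyticAt t
      exact analyticAt_const.add (h3.mul analyticAt_const)
    exact AnalyticAt.fun_comp (f := fun t : ℝ => (1 / 2 + (t : ℂ) * I)) (h1.restrictScalars (𝕜 := ℝ)) h2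
  obtain ⟨T, hT, h1⟩ := ((Pool.Agent.X117.HZ.signed_values 0 one_pos (Or.inl rfl)).and
    (eventually_ge_atTop 3)).exists
  have hL : 0 < Real.log T := Real.log_pos (by linarith)
  have hne : ∃ t : ℝ, riemannZeta (1 / 2 + (t : ℂ) * I) ≠ 0 := by
    by_contra hcon
    push Not at hcon
    have hempty : {t : ℝ | T ≤ t ∧ t ≤ 2 * T ∧
        |Real.log ‖riemannZeta (1 / 2 + t * I)‖ - 0 * Pool.Agent.Y745.LD.LL T| ≤
          1 * Pool.Agent.Y745.LD.LL T ∧ 0 < (1 : ℝ) * Pool.Agent.X117.HZ.Z t} = ∅ := by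
      rw [Set.eq_empty_iff_forall_notMem]
      rintro t ⟨-, -, -, h2⟩
      have h3 := Pool.Agent.X117.HZ.abs_Z t
      rw [show (1 / 2 + I * (t : ℂ)) = 1 / 2 + (t : ℂ) * I by ring, hcon t, norm_zero, abs_eq_zero] at h3
      rw [h3] at h2
      norm_num at h2
    rw [hempty, measureReal_empty] at hT
    have : 0 < T * Real.log T ^ (-(0 : ℝ) ^ 2 - 1) := by positivity
    linarith
  obtain ⟨t, ht⟩ := hne
  have h2 := han.preimage_zero_mem_codiscrete ht
  have h3 := _root_.ae_restrict_le_codiscreteWithin (μ := (volume : Measure ℝ)) MeasurableSet.univ h2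
  rw [Measure.restrict_univ] at h3
  filter_upwards [h3] with x hx
  exact hx

/-- the values of a given size in `D` -/
lemma near_ge (κ : ℝ) {ε η : ℝ} (hε : 0 < ε) (hη : 0 < η) :
    ∃ e : ℝ, 0 < e ∧ ∀ᶠ T : ℝ in atTop, ∀ D : Set ℝ, MeasurableSet D → RelDense η (Real.log T ^ (e - 1)) T D →
      T * Real.log T ^ (-κ ^ 2 - ε) ≤ volume.real (near κ ε T D) := by
  obtain ⟨e, he, -, h⟩ := Pool.Agent.X117.DS.dense_values κ hε hη
  refine ⟨e, he, ?_⟩
  filter_upwards [h, Real.tendsto_log_atTop.eventually_gt_atTop 0] with T hT hL0 D hD hDd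
  refine (hT D hD hDd).trans ?_
  refine ENNReal.toReal_mono (vol_ne (near_sub κ ε T D)) (measure_mono_ae ?_)
  filter_upwards [ae_ne] with t ht hmem
  obtain ⟨h1, h2, h3, h4⟩ := hmem
  have h7 : 0 < ‖riemannZeta (1 / 2 + (t : ℂ) * I)‖ := norm_pos_iff.mpr ht
  have h8 := abs_le.mp h3
  have hLL : Pool.Agent.Y745.LD.LL T = Real.log (Real.log T) := rfl
  rw [hLL] at h8
  refine ⟨h1, h2, ?_, ?_, h4⟩
  · rw [← Real.log_le_log_iff (Real.rpow_pos_of_pos hL0 _) h7, Real.log_rpow hL0]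
    linarith [h8.1]
  · rw [← Real.log_le_log_iff h7 (Real.rpow_pos_of_pos hL0 _), Real.log_rpow hL0]
    linarith [h8.2]

/-- a power of a number between `a ^ x` and `a ^ y` -/
lemma rpow_ge_of {a b k η : ℝ} (ha : 1 ≤ a) (h1 : a ^ (k - η) ≤ b) (h2 : b ≤ a ^ (k + η)) :
    a ^ (2 * k * k - 2 * |k| * η) ≤ b ^ (2 * k) := by
  have ha0 : 0 < a := by linarith
  have hb0 : 0 < b := lt_of_lt_of_le (Real.rpow_pos_of_pos ha0 _) h1
  rcases le_or_gt 0 k with hk | hk
  · have h3 := Real.rpow_le_rpow (by positivity) h1 (show 0 ≤ 2 * k by linarith)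
    rw [← Real.rpow_mul ha0.le] at h3
    refine le_trans (le_of_eq ?_) h3
    congr 1
    rw [abs_of_nonneg hk]
    ring
  · have h3 := Real.rpow_le_rpow_of_nonpos hb0 h2 (show 2 * k ≤ 0 by linarith)
    rw [← Real.rpow_mul ha0.le] at h3
    refine le_trans (le_of_eq ?_) h3
    congr 1
    rw [abs_of_neg hk]
    ring

/-- from the values to the moment -/
lemma moment_of {k η T : ℝ} {D : Set ℝ} (hD : MeasurableSet D) (hT1 : 1 ≤ T) (hL : 1 ≤ Real.log T)
    (hT : T * Real.log T ^ (-k ^ 2 - η) ≤ volume.real (near k η T D)) :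
    ENNReal.ofReal (T * Real.log T ^ (k ^ 2 - (η + 2 * |k| * η))) ≤ moment k T D := by
  have hT0 : 0 < T := by linarith
  have hL0 : 0 < Real.log T := by linarith
  have h1 : ∫⁻ _ in near k η T D, ENNReal.ofReal (Real.log T ^ (2 * k * k - 2 * |k| * η)) ≤
      ∫⁻ t in near k η T D, ENNReal.ofReal (‖riemannZeta (1 / 2 + t * I)‖ ^ (2 * k)) := by
    refine setLIntegral_mono' (near_meas k η T hD) fun t ht => ?_
    exact ENNReal.ofReal_le_ofReal (rpow_ge_of hL ht.2.2.1 ht.2.2.2.1)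
  rw [setLIntegral_const] at h1
  have h4 : ∫⁻ t in near k η T D, ENNReal.ofReal (‖riemannZeta (1 / 2 + t * I)‖ ^ (2 * k)) ≤ moment k T D :=
    lintegral_mono_set (near_sub k η T D)
  refine le_trans ?_ (h1.trans h4)
  have h5 : volume (near k η T D) = ENNReal.ofReal (volume.real (near k η T D)) :=
    (ENNReal.ofReal_toReal (vol_ne (near_sub k η T D))).symm
  rw [h5, ← ENNReal.ofReal_mul (by positivity)]
  refine ENNReal.ofReal_le_ofReal ?_
  refine le_trans (le_of_eq ?_) (mul_le_mul_of_nonneg_left hT (by positivity))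
  rw [mul_left_comm, ← Real.rpow_add hL0]
  congr 2
  ring

lemma eta (k : ℝ) {ε : ℝ} (hε : 0 < ε) : ∃ η : ℝ, 0 < η ∧ η + 2 * |k| * η = ε := by
  have hk := abs_nonneg k
  refine ⟨ε / (1 + 2 * |k|), by positivity, ?_⟩
  field_simp

/-- the moments over `D` -/
lemma moment_ge (k : ℝ) {ε η : ℝ} (hε : 0 < ε) (hη : 0 < η) :
    ∃ e : ℝ, 0 < e ∧ ∀ᶠ T : ℝ in atTop, ∀ D : Set ℝ, MeasurableSet D → RelDense η (Real.log T ^ (e - 1)) T D →
      ENNReal.ofReal (T * Real.log T ^ (k ^ 2 - ε)) ≤ moment k T D := by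
  obtain ⟨ε', hε', hk⟩ := eta k hε
  obtain ⟨e, he, h⟩ := near_ge k hε' hη
  refine ⟨e, he, ?_⟩
  filter_upwards [h, Real.tendsto_log_atTop.eventually_ge_atTop 1, eventually_ge_atTop 1]
    with T hT hL hT1 D hD hDd
  rw [← hk]
  exact moment_of hD hT1 hL (hT D hD hDd)

/-- the values in a double sector -/
lemma sector_near (κ : ℝ) {ε δ : ℝ} (hε : 0 < ε) (hδ : 0 < δ) :
    ∀ᶠ T : ℝ in atTop, ∀ φ : ℝ, T * Real.log T ^ (-κ ^ 2 - ε) ≤ volume.real (near κ ε T (sector φ δ)) := by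
  set d : ℝ := min δ 1 with hd
  have hd0 : 0 < d := lt_min hδ one_pos
  obtain ⟨e, he, h⟩ := near_ge κ hε (show 0 < d / 64 by positivity)
  filter_upwards [h, Pool.Agent.X117.DS.sector_dense hd0 (min_le_right _ _) he] with T h1 h2 φ
  refine (h1 (sector φ d) (Pool.Agent.X117.DS.sector_meas φ d) (h2 φ)).trans ?_
  refine measureReal_mono ?_ (vol_ne (near_sub κ ε T _))
  rintro t ⟨a1, a2, a3, a4, a5⟩
  refine ⟨a1, a2, a3, a4, ?_⟩
  have a5' : |(riemannZeta (1 / 2 + t * I) * cexp (-(φ * I))).im| ≤ d * ‖riemannZeta (1 / 2 + t * I)‖ := a5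
  exact a5'.trans (mul_le_mul_of_nonneg_right (min_le_left _ _) (norm_nonneg _))

/-- **values and moments of zeta over relatively dense sets and in double sectors** -/
theorem result :
    -- (1) the values of size `(log T) ^ κ` in a relatively dense set `D`
    (∀ κ ε η : ℝ, 0 < ε → 0 < η → ∃ e T₀ : ℝ, 0 < e ∧ ∀ T : ℝ, T₀ ≤ T → ∀ D : Set ℝ, MeasurableSet D →
      RelDense η (Real.log T ^ (e - 1)) T D →
      T * Real.log T ^ (-κ ^ 2 - ε) ≤ volume.real (near κ ε T D)) ∧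
    -- (2) the moments over a relatively dense set `D`
    (∀ k ε η : ℝ, 0 < ε → 0 < η → ∃ e T₀ : ℝ, 0 < e ∧ ∀ T : ℝ, T₀ ≤ T → ∀ D : Set ℝ, MeasurableSet D →
      RelDense η (Real.log T ^ (e - 1)) T D →
      ENNReal.ofReal (T * Real.log T ^ (k ^ 2 - ε)) ≤ moment k T D) ∧
    -- (3) the values of size `(log T) ^ κ` close to the line of direction `exp (i φ)`
    (∀ κ ε δ : ℝ, 0 < ε → 0 < δ → ∃ T₀ : ℝ, ∀ T : ℝ, T₀ ≤ T → ∀ φ : ℝ,
      T * Real.log T ^ (-κ ^ 2 - ε) ≤ volume.real (near κ ε T (sector φ δ))) ∧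
    -- (4) the moments over the `t` with `ζ(1/2 + i t)` close to the line of direction `exp (i φ)`
    (∀ k ε δ : ℝ, 0 < ε → 0 < δ → ∃ T₀ : ℝ, ∀ T : ℝ, T₀ ≤ T → ∀ φ : ℝ,
      ENNReal.ofReal (T * Real.log T ^ (k ^ 2 - ε)) ≤ moment k T (sector φ δ)) := by
  refine ⟨?_, ?_, ?_, ?_⟩
  · intro κ ε η hε hη
    obtain ⟨e, he, h⟩ := near_ge κ hε hη
    obtain ⟨T₀, hT₀⟩ := Filter.eventually_atTop.mp h
    exact ⟨e, T₀, he, hT₀⟩
  · intro k ε η hε hη
    obtain ⟨e, he, h⟩ := moment_ge k hε hη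
    obtain ⟨T₀, hT₀⟩ := Filter.eventually_atTop.mp h
    exact ⟨e, T₀, he, hT₀⟩
  · intro κ ε δ hε hδ
    exact Filter.eventually_atTop.mp (sector_near κ hε hδ)
  · intro k ε δ hε hδ
    obtain ⟨ε', hε', hk⟩ := eta k hε
    refine Filter.eventually_atTop.mp ?_
    filter_upwards [sector_near k hε' hδ, Real.tendsto_log_atTop.eventually_ge_atTop 1, eventually_ge_atTop 1]
      with T hT hL hT1 φ
    rw [← hk]
    exact moment_of (Pool.Agent.X117.DS.sector_meas φ δ) hT1 hL (hT φ)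

end Pool.Agent.Results.MP_56b8f5_nt.MomentsOverDenseSets
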