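import Pool.Agent.X107.MU.MU21

/-!
# Moments of zeta on the critical line and universality to the right of it

For a compact subset `K` of the strip `1/2 < Re z < 1`, a function `f` on `K` and `ε > 0` let `S` be the set of
the real `t` for which `|ζ(z + it) - f(z)| ≤ ε` for all `z` in `K`. If `f` is a target of the universality
theorem, then for every real `k > 0` and every `ε > 0` there are `c > 0` and `η > 0` such that for all large `T`
and all `σ` between `1/2` and `1/2 + η`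

`∫_{[0, T] ∩ S} |ζ(σ + it)|^(2k) dt ≥ c T (σ - 1/2 + 1 / log T)^(-k²)`;

in particular `∫_{[0, T] ∩ S} |ζ(1/2 + it)|^(2k) dt ≥ c T (log T)^(k²)` on the critical line, which is the
conjectured order of the whole moment (`k = 4`: the eighth moment, of order `(log T)^16`).
Conversely, if such lower bounds hold for one `k ≤ 2` and all `ε > 0`, then `f` is a target.
-/

set_option autoImplicit false

open Complex Filter Set MeasureTheory Topology

namespace Pool.Agent.Results.MP_56b8f5_nt.UniversalityOnTheLine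

/-- the real `t` for which `z ↦ ζ(z + it)` is uniformly on `K` at distance at most `ε` from `f` -/
def S (ε : ℝ) (K : Set ℂ) (f : ℂ → ℂ) : Set ℝ :=
  {t : ℝ | ∀ z ∈ K, ‖riemannZeta (z + t * I) - f z‖ ≤ ε}

/-- the moment of order `2 k` over the part in `P` of `[0, T]`, at the abscissa `σ`:
`∫_{[0, T] ∩ P} |ζ(σ + it)|^(2k) dt` -/
noncomputable def M (k σ : ℝ) (P : Set ℝ) (T : ℝ) : ℝ :=
  ∫ t in Icc 0 T ∩ P, ‖riemannZeta (σ + t * I)‖ ^ (2 * k)

/-- the lower bound for the moments over the set `S`, at all abscissas in `[1/2, 1/2 + η]` -/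
def Lower (k ε : ℝ) (K : Set ℂ) (f : ℂ → ℂ) : Prop :=
  ∃ c : ℝ, 0 < c ∧ ∃ η : ℝ, 0 < η ∧ ∀ᶠ T : ℝ in atTop, ∀ σ : ℝ, 1 / 2 ≤ σ → σ ≤ 1 / 2 + η →
    c * T * (σ - 1 / 2 + 1 / Real.log T) ^ (-(k ^ 2)) ≤ M k σ (S ε K f) T

/-- the hull of `K`: the union of `K` and of the bounded components of its complement -/
def hull (K : Set ℂ) : Set ℂ :=
  K ∪ {z | z ∉ K ∧ Bornology.IsBounded (connectedComponentIn Kᶜ z)}

/-- `g` is continuous on `L`, holomorphic in the interior of `L`, and on each component of the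
interior of `L` either free of zeros or identically zero. -/
structure Good (L : Set ℂ) (g : ℂ → ℂ) : Prop where
  cont : ContinuousOn g L
  hol : DifferentiableOn ℂ g (interior L)
  comp : ∀ z ∈ interior L, (∀ w ∈ connectedComponentIn (interior L) z, g w ≠ 0) ∨
    (∀ w ∈ connectedComponentIn (interior L) z, g w = 0)

/-- `f` extends from `K` to a good function on the hull of `K` -/
def IsTarget (K : Set ℂ) (f : ℂ → ℂ) : Prop := ∃ g : ℂ → ℂ, (∀ z ∈ K, g z = f z) ∧ Good (hull K) g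

lemma isTarget_iff (K : Set ℂ) (f : ℂ → ℂ) : IsTarget K f ↔ Pool.Agent.Y834.UT.Tgt K f := by
  constructor
  · rintro ⟨g, h1, h2, h3, h4⟩
    exact ⟨g, h1, h2, h3, h4⟩
  · rintro ⟨g, h1, h2, h3, h4⟩
    exact ⟨g, h1, h2, h3, h4⟩

lemma isTarget_of_connected {K : Set ℂ} (hK : IsCompact K) (hKc : IsConnected Kᶜ) (f : ℂ → ℂ) :
    IsTarget K f ↔ Good K f := by
  have hh : hull K = K := Pool.Agent.Y834.UT.hull_eq hK hKc
  constructor
  · rintro ⟨g, h1, h2⟩
    rw [hh] at h2
    have h1' : ∀ z ∈ interior K, f z = g z := fun z hz => (h1 z (interior_subset hz)).symm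
    refine ⟨h2.cont.congr fun z hz => (h1 z hz).symm, h2.hol.congr h1', fun z hz => ?_⟩
    have hsub : connectedComponentIn (interior K) z ⊆ interior K := connectedComponentIn_subset _ _
    rcases h2.comp z hz with h | h
    · exact Or.inl fun w hw => by
        rw [h1' w (hsub hw)]
        exact h w hw
    · exact Or.inr fun w hw => by
        rw [h1' w (hsub hw)]
        exact h w hw
  · intro h
    refine ⟨f, fun _ _ => rfl, ?_⟩
    rw [hh]
    exact h

lemma exists_path : ∃ δ : ℝ → ℝ, Tendsto δ atTop (𝓝 0) ∧ Tendsto (fun T : ℝ => δ T * Real.log T) atTop atTop := by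
  have h1 : Tendsto (fun T : ℝ => √(Real.log T)) atTop atTop :=
    Real.tendsto_sqrt_atTop.comp Real.tendsto_log_atTop
  refine ⟨fun T => (√(Real.log T))⁻¹, h1.inv_tendsto_atTop, ?_⟩
  refine h1.congr' ?_
  filter_upwards [eventually_gt_atTop (1 : ℝ)] with T hT
  have hL := Real.log_pos hT
  have h2 : √(Real.log T) ≠ 0 := (Real.sqrt_pos.2 hL).ne'
  field_simp
  rw [Real.sq_sqrt hL.le]

/-- the converse -/
lemma converse {K : Set ℂ} (hK : IsCompact K) (hKs : ∀ z ∈ K, 1 / 2 < z.re ∧ z.re < 1) {f : ℂ → ℂ} {k : ℝ}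
    (hk : 0 < k) (hk2 : k ≤ 2) (h : ∀ ε : ℝ, 0 < ε → Lower k ε K f) : IsTarget K f := by
  rw [isTarget_iff]
  obtain ⟨Z0, hZ0⟩ := Pool.Agent.X107.MU.sys_path Pool.Agent.Y901.SHR.done Pool.Agent.Y753.SHR.star
  obtain ⟨δ, hδ, hδL⟩ := exists_path
  obtain ⟨E, hE, hvol, hsys⟩ := hZ0 δ hδ hδL 0 le_rfl {k} (countable_singleton k) (fun r hr => by
    rw [mem_singleton_iff] at hr
    rw [hr]
    exact hk)
  have hs := (hsys k (mem_singleton k)).2 hk2
  refine Pool.Agent.X107.MU.of_weight hK hKs fun ε hε => ⟨_, _, _, hs, fun ht => ?_⟩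
  obtain ⟨c, hc, η, hη, hT⟩ := h (ε / 2) (by positivity)
  obtain ⟨T, h1, h2, h3, h4, h5, h6⟩ := (hT.and ((ht.eventually (gt_mem_nhds hc)).and
    ((hδ.eventually (gt_mem_nhds hη)).and ((hδL.eventually_ge_atTop 1).and
    ((eventually_gt_atTop (1 : ℝ)).and (hδ.eventually (gt_mem_nhds (show (0:ℝ) < 1 / 2 by norm_num)))))))).exists
  have hL := Real.log_pos h5
  have hd : 0 < δ T := (pos_iff_pos_of_mul_pos (by linarith)).mpr hL
  have hdL : 1 / Real.log T ≤ δ T := by rw [div_le_iff₀ hL]; exact h4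
  have h7 := h1 (1 / 2 + δ T) (by linarith) (by linarith)
  have e1 : 1 / 2 + δ T - 1 / 2 + 1 / Real.log T = δ T + 1 / Real.log T := by ring
  rw [e1] at h7
  have hdL0 : 0 < 1 / Real.log T := by positivity
  have hk2' : 0 < k ^ 2 := by positivity
  have h8 : (2 * δ T) ^ (-(k ^ 2)) ≤ (δ T + 1 / Real.log T) ^ (-(k ^ 2)) :=
    Real.rpow_le_rpow_of_nonpos (by positivity) (by linarith) (by linarith)
  have h9 : M k (1 / 2 + δ T) (S (ε / 2) K f) T ≤
      ∫ t in Icc 0 T ∩ Pool.Agent.Y834.UT.SS ε K f, ‖riemannZeta (1 / 2 + δ T + (t : ℂ) * I)‖ ^ (2 * k) := by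
    unfold M
    have hcont : Continuous fun t : ℝ => ‖riemannZeta (1 / 2 + δ T + (t : ℂ) * I)‖ ^ (2 * k) := by
      have := Pool.Agent.X107.MU.line_cont (σ := 1 / 2 + δ T) (by linarith) (show 0 < 2 * k by positivity)
      push_cast at this
      exact this
    push_cast
    refine setIntegral_mono_set ((hcont.continuousOn.integrableOn_compact isCompact_Icc).mono_set inter_subset_left)
      (Eventually.of_forall fun t => by positivity) (Eventually.of_forall fun t (ht : t ∈ Icc 0 T ∩ _) => ⟨ht.1, ?_⟩)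
    exact ⟨ε / 2, by linarith, ht.2⟩
  have hT0 : 0 < T := by linarith
  have hp : 0 < (2 * δ T) ^ (k ^ 2) := by positivity
  have h10 : c * T * (2 * δ T) ^ (-(k ^ 2)) ≤
      ∫ t in Icc 0 T ∩ Pool.Agent.Y834.UT.SS ε K f, ‖riemannZeta (1 / 2 + δ T + (t : ℂ) * I)‖ ^ (2 * k) :=
    (mul_le_mul_of_nonneg_left h8 (by positivity)).trans (h7.trans h9)
  rw [Real.rpow_neg (by positivity)] at h10
  have h2' : (2 * δ T) ^ (k ^ 2) / T *
      ∫ t in Icc 0 T ∩ Pool.Agent.Y834.UT.SS ε K f, ‖riemannZeta (1 / 2 + δ T + (t : ℂ) * I)‖ ^ (2 * k) < c := h2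
  have h11 := mul_le_mul_of_nonneg_left h10 (show 0 ≤ (2 * δ T) ^ (k ^ 2) / T by positivity)
  have e2 : (2 * δ T) ^ (k ^ 2) / T * (c * T * ((2 * δ T) ^ (k ^ 2))⁻¹) = c := by
    field_simp
  rw [e2] at h11
  linarith

/-- **Moments of all real orders on the critical line, over the sets of ordinates described by universality.** -/
theorem result :
    (∀ (K : Set ℂ) (f : ℂ → ℂ), IsCompact K → (∀ z ∈ K, 1 / 2 < z.re ∧ z.re < 1) →
      -- for targets, lower bounds of the expected order at and to the right of the critical line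
      (IsTarget K f → ∀ k : ℝ, 0 < k → ∀ ε : ℝ, 0 < ε → Lower k ε K f) ∧
      -- in particular on the critical line
      (IsTarget K f → ∀ k : ℝ, 0 < k → ∀ ε : ℝ, 0 < ε → ∃ c : ℝ, 0 < c ∧ ∀ᶠ T : ℝ in atTop,
        c * T * Real.log T ^ (k ^ 2) ≤ M k (1 / 2) (S ε K f) T) ∧
      -- the converse
      ((∃ k : ℝ, 0 < k ∧ k ≤ 2 ∧ ∀ ε : ℝ, 0 < ε → Lower k ε K f) → IsTarget K f)) ∧
    -- if the complement of `K` is connected, the targets are the good functions on `K`
    (∀ (K : Set ℂ) (f : ℂ → ℂ), IsCompact K → IsConnected Kᶜ → (IsTarget K f ↔ Good K f)) := by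
  have hmain : ∀ (K : Set ℂ) (f : ℂ → ℂ), IsCompact K → (∀ z ∈ K, 1 / 2 < z.re ∧ z.re < 1) →
      IsTarget K f → ∀ k : ℝ, 0 < k → ∀ ε : ℝ, 0 < ε → Lower k ε K f := by
    intro K f hK hKs hf k hk ε hε
    rw [isTarget_iff] at hf
    exact Pool.Agent.X107.MU.on_line_tgt hk hK hKs hf hε
  refine ⟨fun K f hK hKs => ⟨hmain K f hK hKs, fun hf k hk ε hε => ?_, ?_⟩, fun K f hK hKc => isTarget_of_connected hK hKc f⟩
  · obtain ⟨c, hc, η, hη, h⟩ := hmain K f hK hKs hf k hk ε hε
    refine ⟨c, hc, ?_⟩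
    filter_upwards [h, eventually_gt_atTop (1 : ℝ)] with T h1 h2
    have h3 := h1 (1 / 2) le_rfl (by linarith)
    have hL := Real.log_pos h2
    have e : (1 / 2 - 1 / 2 + 1 / Real.log T) ^ (-(k ^ 2)) = Real.log T ^ (k ^ 2) := by
      rw [sub_self, zero_add, one_div, Real.inv_rpow hL.le, Real.rpow_neg hL.le, inv_inv]
    rw [e] at h3
    exact h3
  · rintro ⟨k, hk, hk2, h⟩
    exact converse hK hKs hk hk2 h

end Pool.Agent.Results.MP_56b8f5_nt.UniversalityOnTheLine
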